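import Pool.Agent.Y720.PAC.Scheme
import Pool.Agent.Y720.PAC.Gal

/-!
# A field with property (A) whose absolute Galois group is not finitely generated

There is a field `K` of characteristic zero such that every `O`-acyclic variety over `K` has a
`K`-rational point, while no finite set of elements generates a dense subgroup of the absolute
Galois group of `K`.

The field is the union of a tower of fields. At every step we pass to a residue field of the
product, over the finite sets of absolutely prime systems of equations, of the function fields of
the products of the corresponding varieties. In this way all these systems get solutions, and no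
integer which is not a square becomes a square; so the square roots of the prime numbers are
independent over `K`.
-/

set_option autoImplicit false

open AlgebraicGeometry CategoryTheory TopologicalSpace

namespace Pool.Agent.Results.MP_023059_nt.NotProcyclic

attribute [local instance] MvPolynomial.gradedAlgebra

/-- `X` is projective over `K`: a closed subscheme of a projective space over `K`. -/
def IsProjective {K : Type} [Field K] {X : Scheme.{0}} (f : X ⟶ Spec (.of K)) : Prop :=
  ∃ (N : ℕ) (j : X ⟶ Proj (MvPolynomial.homogeneousSubmodule (Fin (N + 1)) K)),
    IsClosedImmersion j ∧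
      j ≫ Proj.toSpecZero (MvPolynomial.homogeneousSubmodule (Fin (N + 1)) K) ≫
        Spec.map (CommRingCat.ofHom (algebraMap K
          (MvPolynomial.homogeneousSubmodule (Fin (N + 1)) K 0))) = f

/-- Varieties over `K`: smooth, projective, geometrically integral `K`-schemes. -/
structure IsVariety {K : Type} [Field K] {X : Scheme.{0}} (f : X ⟶ Spec (.of K)) : Prop where
  smooth : Smooth f
  projective : IsProjective f
  geometricallyIntegral : GeometricallyIntegral f

/-- The structure sheaf of `X` as a sheaf of abelian groups. -/
noncomputable def structureSheafAb (X : Scheme.{0}) :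
    Sheaf (Opens.grothendieckTopology X) AddCommGrpCat.{0} :=
  (sheafCompose _ (forget₂ CommRingCat.{0} RingCat.{0} ⋙ forget₂ RingCat.{0} AddCommGrpCat.{0})).obj
    X.sheaf

/-- `X` is `O`-acyclic: the structure map `K → H⁰(X, O_X)` is bijective and `Hⁱ(X, O_X) = 0`
for all `i > 0`. -/
structure IsOAcyclic {K : Type} [Field K] {X : Scheme.{0}} (f : X ⟶ Spec (.of K)) : Prop where
  h_zero : Function.Bijective ((Scheme.ΓSpecIso (.of K)).inv ≫ f.appTop).hom
  h_pos : ∀ i : ℕ, 0 < i → Subsingleton (Sheaf.H (structureSheafAb X) i)

/-- Property (A): every `O`-acyclic variety over `K` has a `K`-rational point. -/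
def PropertyA (K : Type) [Field K] : Prop :=
  ∀ (X : Scheme.{0}) (f : X ⟶ Spec (.of K)), IsVariety f → IsOAcyclic f →
    ∃ s : Spec (.of K) ⟶ X, s ≫ f = 𝟙 _

/-- **Negative answer.** There is a field `K` of characteristic zero with property (A) whose
absolute Galois group `Gal(Kˢ/K)`, with the Krull topology, is not topologically generated by one
element, nor by any finite set of elements. -/
theorem result : ∃ (K : Type) (_ : Field K), CharZero K ∧ PropertyA K ∧
    ∀ S : Set (SeparableClosure K ≃ₐ[K] SeparableClosure K), S.Finite →
      (Subgroup.closure S).topologicalClosure ≠ ⊤ := by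
  obtain ⟨K, _, hK, hK'⟩ := Pool.Agent.Y720.PAC.exists_field
  have : CharZero K := hK.char
  refine ⟨K, inferInstance, hK.char, ?_, ?_⟩
  · intro X f hX _
    have := hX.geometricallyIntegral
    have := hX.smooth
    exact Pool.Agent.Y720.PAC.exists_point hK' X f
  · intro S hS
    exact Pool.Agent.Y720.PAC.not_fg hK (SeparableClosure K)
      Pool.Agent.Y720.PAC.exists_sqrt S hS

end Pool.Agent.Results.MP_023059_nt.NotProcyclic
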